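import Mathlib
import Pool.Agent.Helper2.Genus.Main

/-!
# Surfaces of finite positive genus: the mapping class group does not have two ends

Let `X` be a compact Hausdorff surface, `E` a closed subset and `Σ = X ∖ E`.  Assume that `Σ`
contains a one-holed torus.  Let `H` be a subgroup of finite index of the group of all
self-homeomorphisms of `Σ` (for instance the orientation-preserving ones) and `MCG H` the
topological group of isotopy classes of elements of `H`.  If `MCG H` is generated by a coarsely
bounded set `S` then the Cayley graph of `S` does not have exactly two ends.

Every surface of finite genus `g ≥ 1` is of the form `X ∖ E` with `X` closed of genus `g` and `E`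
closed (and totally disconnected), and contains a one-holed torus.

Proof.  `Homeo(Σ)` acts on the group `Lam Σ` of compactly supported continuous maps `Σ → ℝ/ℤ`
modulo those which lift to `ℝ` (the image of `H¹_c` in `H¹`).  This group is finitely generated
because `X` is a compact manifold, isotopic homeomorphisms act in the same way, and the kernel of
the action is open.  The logarithm of the distortion of the word norm of `Lam Σ` is therefore a
continuous length function.  The powers of a Dehn twist about one curve of the one-holed torus are
unbounded for it, and the powers of the Dehn twist about the other one are far from all of them.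
-/

set_option autoImplicit false

namespace Pool.Agent.Results.MP_52bbbe_gt.FinitePositiveGenus

open Pool.Agent.Helper50.Ends Pool.Agent.Helper2.Genus

/-- **Theorem.**  Let `X` be a compact Hausdorff surface, `E` a closed subset of `X` and suppose
that the complement of `E` contains a one-holed torus.  Let `H` be a subgroup of finite index of
the group of self-homeomorphisms of the complement of `E`.  If the group `MCG H` of isotopy classes
is generated by a coarsely bounded set `S`, then the number of ends of its Cayley graph is not
two. -/
theorem result {X : Type*} [TopologicalSpace X] [T2Space X] [CompactSpace X]
    [ChartedSpace (EuclideanSpace ℝ (Fin 2)) X] (E : Set X) (hE : IsClosed E)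
    (j : Handle → (Eᶜ : Set X)) (hj : Topology.IsOpenEmbedding j)
    (H : Subgroup ((Eᶜ : Set X) ≃ₜ (Eᶜ : Set X))) (hH : H.FiniteIndex)
    (S : Set (MCG H)) (hS : CoarselyBounded S) (hgen : Subgroup.closure S = ⊤) :
    numEnds (cayley S) ≠ 2 :=
  not_two_of_compact E hE j hj H hH S hS hgen

end Pool.Agent.Results.MP_52bbbe_gt.FinitePositiveGenus
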