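import Mathlib
import Pool.Agent.GEN.Main

/-!
# Surfaces with a non-displaceable finite-type subsurface: not two ends

Let `Γ ≤ SL(2, ℝ)` be a discrete noncommutative group all of whose nontrivial elements `g` are
hyperbolic (`|trace g| > 2`) and `X = ℍ / Γ`.  By the uniformization theorem every surface of
infinite type is of this form.

Let `a`, `b` be two simple closed curves in `X` and `H` a subgroup of finite index of the group of
all self-homeomorphisms of `X` (for instance the orientation-preserving ones) such that no `h ∈ H`
displaces the union of `a` and `b` up to homotopy: one of the four pairs `(h a, a)`, `(h a, b)`,
`(h b, a)`, `(h b, b)` cannot be made disjoint by homotopies.  This holds if `a` and `b` fill a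
non-displaceable subsurface of finite type.  Let `MCG H` be the topological group of isotopy
classes of elements of `H`.  If it is generated by a coarsely bounded set `S` then the Cayley graph
of `S` does not have exactly two ends.

Proof.  For `u, w ∈ Γ` let `I(u, w)` be the number of crossings of the closed geodesics of `u` and
`w`: the number of double cosets `C(u) g C(w)` such that the axes of `u` and `g w g⁻¹` have linked
ends.  Homeomorphisms act on `Γ` up to conjugation and preserve `I`.  The positions of the ends of
an axis along the axis of `b` define a twisting number at every crossing with `b`, and `I(u, w)` is
at least the sum, over all pairs of crossings of `u` and of `w` with `b`, of the difference of the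
twisting numbers minus `3`.  The Dehn twist about `b` changes all twisting numbers by one, up to a
bounded error.  Hence large powers `A`, `B` of the Dehn twists about `a` and `b` play ping-pong
with the sets `{I(·, a) < I(·, b)}` and `{I(·, b) ≤ I(·, a)}`, with exponential growth of `I`.
Let `κ(η)` be the largest `j` such that `(B A)⁻ʲ η` maps `a` or `b` to a curve which crosses `a` at
least as often as `b`.  Then `sup |κ(η θ) - κ(η)|`, the supremum over all `η` induced by elements
of `H`, is a length function of `θ`; it is finite since `I(η c, η θ d) = I(c, θ d)` and since one
of `h a`, `h b` always crosses one of `a`, `b`.  Together with the one for `B⁻¹ A` it shows that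
the powers of `B⁻¹ A` leave every neighbourhood of the proper cyclic group generated by `B A`,
which is impossible in a two-ended group.

Application (standard facts, not formalised).  Let `Σ` be a surface of infinite type and `S` a
connected non-displaceable subsurface of finite type; enlarging `S` we may assume that `S` is not a
disc, an annulus or a sphere with three holes.  Give `Σ` a complex structure in which every
isolated planar end is an annulus of finite modulus; then `Σ = ℍ / Γ` where `Γ` is free, without
parabolic elements, and lifts from `PSL(2, ℝ)` to `SL(2, ℝ)`.  Let `a`, `b` be simple closed curves
which fill `S`.  Suppose that a homeomorphism `h` violates the condition: all four pairs can be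
made disjoint by homotopies.  Then the closed geodesics `α'`, `β'` of `h a`, `h b` are disjoint
from or equal to the closed geodesics `α`, `β` of `a`, `b`.  Since `α'` crosses `β'`, none of them
is equal to `α` or `β`, and none of them is parallel to a boundary curve of `S` (the other one
would cross this curve, enter `S` and cross `α` or `β`).  As `α`, `β` fill `S`, the curves `α'`,
`β'` are disjoint from `S`, and so is, after an isotopy, the subsurface `h S` which they fill.
This contradicts the assumption that `S` is non-displaceable.  With `H` the group of
orientation-preserving homeomorphisms, `MCG H` is the mapping class group of `Σ`.
-/

set_option autoImplicit false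

namespace Pool.Agent.Results.MP_52bbbe_gt.NonDisplaceable

open Pool.Agent.Helper2.Fuch Pool.Agent.GEN

/-- **Theorem.**  Let `Γ` be a discrete noncommutative subgroup of `SL(2, ℝ)` all of whose
nontrivial elements are hyperbolic, `a`, `b` two simple closed curves in the surface `X = ℍ / Γ`
and `H` a subgroup of finite index of the group of self-homeomorphisms of `X`.  Suppose that for
every `h ∈ H` one of the curves `h ∘ a`, `h ∘ b` and one of the curves `a`, `b` cannot be made
disjoint by homotopies.  If the group `MCG H` of isotopy classes of elements of `H` is generated
by a coarsely bounded set `S`, then the number of ends of the Cayley graph of `S` is not two. -/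
theorem result (Γ : Fuchsian) (a b : C(UnitAddCircle, Γ.X)) (ha : Function.Injective a)
    (hb : Function.Injective b) (H : Subgroup (Γ.X ≃ₜ Γ.X)) (hH : H.FiniteIndex)
    (hN : NonDisplaceable H a b) : NotTwoEnds H :=
  not_two Γ a b ha hb H hH hN

end Pool.Agent.Results.MP_52bbbe_gt.NonDisplaceable
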