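import Mathlib
import Pool.Agent.Helper50.Ends.Cayley

/-!
# An obstruction to two ends for CB-generated groups

Let `G` be a topological group generated by a coarsely bounded set `S`, let `d` be a continuous
left-invariant pseudometric on `G` and `f` an element with `d(1, f ^ n) → ∞`.  If there are elements
of `G` arbitrarily `d`-far from all powers of `f` then the Cayley graph of `S` does not have exactly
two ends.  For a big mapping class group with a non-displaceable finite-type subsurface, the length
function of Mann and Rafi built from subsurface projections provides such a pseudometric: take for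
`f` a pseudo-Anosov map of the subsurface.
-/

set_option autoImplicit false

namespace Pool.Agent.Results.MP_52bbbe_gt.NotTwoEnded

open Pool.Agent.Helper50.Ends

/-- **Theorem.**  Let `G` be a topological group with a coarsely bounded generating set `S`, `δ` a
continuous left-invariant pseudometric on `G` and `f` an element whose powers leave every
`δ`-ball.  If for every `R` some `g` is at `δ`-distance more than `R` from all powers of `f`, then
the number of ends of the Cayley graph of `S` is not two. -/
theorem result {G : Type*} [Group G] [TopologicalSpace G] [IsTopologicalGroup G] (S : Set G)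
    (hS : CoarselyBounded S) (hgen : Subgroup.closure S = ⊤) (δ : LeftPseudometric G) (f : G)
    (hf : ∀ R : ℝ, {n : ℤ | δ.d 1 (f ^ n) ≤ R}.Finite)
    (hfar : ∀ R : ℝ, ∃ g : G, ∀ n : ℤ, R < δ.d (f ^ n) g) :
    numEnds (cayley S) ≠ 2 := by
  intro h
  obtain ⟨-, B, hB, c₁, c₂, hc₁, hc₂, hc⟩ := numEnds_eq_two_iff.mp h
  have H := setup_of_two hgen h
  obtain ⟨K, hK0, hlip⟩ := lipschitz hS hgen δ
  have hproper : Proper (cayley S) f := by
    intro R
    refine (hf (R * K)).subset ?_
    intro n hn
    simp only [Set.mem_ofPred_eq] at hn ⊢
    refine (hlip _ _).trans ?_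
    exact mul_le_mul_of_nonneg_right (by exact_mod_cast hn) hK0
  obtain ⟨R, hR⟩ := H.dense hproper hB hc₁ hc₂ hc
  obtain ⟨g, hg⟩ := hfar (R * K)
  obtain ⟨n, hn⟩ := hR g
  have h1 := hlip (f ^ n) g
  have h2 : ((cayley S).dist (f ^ n) g : ℝ) * K ≤ R * K :=
    mul_le_mul_of_nonneg_right (by exact_mod_cast hn) hK0
  have h3 := hg n
  linarith

end Pool.Agent.Results.MP_52bbbe_gt.NotTwoEnded
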